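import Pool.Agent.H642R2.MOPoly

/-!
Finding a man-optimal weakly stable matching in an instance of the stable marriage problem with
ties and incomplete lists is NP-hard, and deciding whether one exists is coNP-hard.
-/

namespace Pool.Agent.Results.MP_7af251_lc.ManOptHard

open Pool.Agent.NPC Pool.Agent.NPC.MO

/-- `G` solves the search problem: on every instance with ties and incomplete lists it outputs a
man-optimal weakly stable matching, or `none` if the instance has none. -/
def Solves (G : Inst → Option (List (ℕ × ℕ))) : Prop :=
  ∀ I, IsSMTI I → (∀ M, G I = some M → ManOptimal I M) ∧ (G I = none → ¬ ∃ M, ManOptimal I M)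

/-- For every language `L` in NP there is a polynomial-time computable `f` producing instances with
ties and incomplete lists such that `x ∈ L` if and only if `f x` has no man-optimal weakly stable
matching, if and only if a solver of the search problem answers `none` on `f x` (so deciding
existence is coNP-hard and the search problem is NP-hard, with a single call). In particular, if
the search problem is solvable in polynomial time then P = NP. -/
theorem result :
    (∀ L : Set (List Bool), InNP L → ∃ f : List Bool → Inst, PolyTime (fun x => bits (f x)) ∧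
      (∀ x, IsSMTI (f x)) ∧ (∀ x, x ∈ L ↔ ¬ ∃ M, ManOptimal (f x) M) ∧
      ∀ G, Solves G → ∀ x, x ∈ L ↔ G (f x) = none) ∧
    ((∃ (G : Inst → Option (List (ℕ × ℕ))) (g : List Bool → List Bool), Solves G ∧ PolyTime g ∧
      ∀ I, IsSMTI I → g (bits I) = bits (G I)) → ∀ L : Set (List Bool), InNP L → InP L) := by
  have key : ∀ L : Set (List Bool), InNP L → ∃ f : List Bool → Inst,
      PolyTime (fun x => bits (f x)) ∧
      (∀ x, IsSMTI (f x)) ∧ (∀ x, x ∈ L ↔ ¬ ∃ M, ManOptimal (f x) M) ∧
      ∀ G, Solves G → ∀ x, x ∈ L ↔ G (f x) = none := by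
    intro L hL
    obtain ⟨f, hf, hpr, hfL⟩ := hard L hL
    refine ⟨f, PC.toPolyTime hf, hpr, hfL, fun G hG x => ?_⟩
    rw [hfL x]
    obtain ⟨h1, h2⟩ := hG (f x) (hpr x)
    constructor
    · intro h3
      cases h : G (f x) with
      | none => rfl
      | some M => exact absurd ⟨M, h1 M h⟩ h3
    · exact h2
  refine ⟨key, ?_⟩
  rintro ⟨G, g, hG, hg, hgG⟩ L hL
  obtain ⟨f, hf, hpr, _, hfG⟩ := key L hL
  have h1 : PolyTime (fun x => g (bits (f x))) := Pool.Agent.H642R2.TMSim.polyTime_comp hg hf
  have h2 : NPC.Poly (fun y : List Bool => decide (y = bits (none : Option (List (ℕ × ℕ))))) :=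
    NPC.Poly.decide_eq NPC.Poly.id (NPC.Poly.const _)
  refine ⟨_, polyTime_test h1 h2, fun x => ?_⟩
  rw [hfG G hG x]
  simp only [List.cons.injEq, and_true, decide_eq_true_eq, hgG (f x) (hpr x)]
  constructor
  · intro h; rw [h]
  · intro h; exact bits_injective h

end Pool.Agent.Results.MP_7af251_lc.ManOptHard
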